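import Pool.Agent.H74.OLP.Targets2

/-!
# Row MTR: the three cycles at a vertex
-/

set_option autoImplicit false
set_option linter.unusedSectionVars false
open scoped Classical
open Finset

namespace Pool.Agent.H7.OLP

open Pool.Agent.H74.OLP

/-- The edges of a cycle at a vertex. -/
private theorem cyE {V : Type} (G : SimpleGraph V) (v w : V) (p : G.Walk w w) (hp : p.IsCycle)
    (a b d : V) (hN : ∀ u, G.Adj v u → (u = a ∨ u = b ∨ u = d)) (hab : a ≠ b) (had : a ≠ d)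
    (hbd : b ≠ d) :
    (s(v, a) ∈ p.edges → (s(v, b) ∈ p.edges ∨ s(v, d) ∈ p.edges)) ∧
    (s(v, b) ∈ p.edges → (s(v, a) ∈ p.edges ∨ s(v, d) ∈ p.edges)) ∧
    (s(v, d) ∈ p.edges → (s(v, a) ∈ p.edges ∨ s(v, b) ∈ p.edges)) ∧
    ¬ (s(v, a) ∈ p.edges ∧ s(v, b) ∈ p.edges ∧ s(v, d) ∈ p.edges) := by
  have key : v ∈ p.support → ∃ x y, x ≠ y ∧ ∀ u, s(v, u) ∈ p.edges ↔ (u = x ∨ u = y) := by
    intro hv
    have h1 := hp.ncard_neighborSet_toSubgraph_eq_two hv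
    obtain ⟨x, y, hxy, h2⟩ := Set.ncard_eq_two.1 h1
    refine ⟨x, y, hxy, fun u => ?_⟩
    rw [← SimpleGraph.Walk.adj_toSubgraph_iff_mem_edges, ← SimpleGraph.Subgraph.mem_neighborSet, h2]
    simp
  have hA : ∀ u, s(v, u) ∈ p.edges → (u = a ∨ u = b ∨ u = d) := fun u hu =>
    hN u (p.adj_of_mem_edges hu)
  have hS : ∀ u, s(v, u) ∈ p.edges → v ∈ p.support := fun u hu => p.fst_mem_support_of_mem_edges hu
  by_cases hv : v ∈ p.support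
  · obtain ⟨x, y, hxy, h⟩ := key hv
    have hx := hA x ((h x).2 (Or.inl rfl))
    have hy := hA y ((h y).2 (Or.inr rfl))
    rw [h a, h b, h d]
    rcases hx with rfl | rfl | rfl <;> rcases hy with rfl | rfl | rfl <;> tauto
  · refine ⟨fun h => absurd (hS _ h) hv, fun h => absurd (hS _ h) hv, fun h => absurd (hS _ h) hv,
      fun h => absurd (hS _ h.1) hv⟩

private theorem pr {F : Type} (P : F → Prop) (g₁ g₂ f : F) (hg : g₁ ≠ g₂)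
    (hP : ∀ t, P t ↔ (t = g₁ ∨ t = g₂)) (hf : P f) :
    ∃ x, x ≠ f ∧ ∀ t, P t ↔ (t = f ∨ t = x) := by
  rcases (hP f).1 hf with rfl | rfl
  · exact ⟨g₂, hg.symm, hP⟩
  · exact ⟨g₁, hg, fun t => (hP t).trans or_comm⟩

private theorem cmb {F : Type} (A B D : F → Prop)
    (hE : ∀ t, (A t → B t ∨ D t) ∧ (B t → A t ∨ D t) ∧ (D t → A t ∨ B t) ∧ ¬ (A t ∧ B t ∧ D t))
    (f₁ f₂ g₁ g₂ h₁ h₂ : F) (hg : g₁ ≠ g₂) (hh : h₁ ≠ h₂)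
    (Fa : ∀ t, A t ↔ (t = f₁ ∨ t = f₂)) (Fb : ∀ t, B t ↔ (t = g₁ ∨ t = g₂))
    (Fd : ∀ t, D t ↔ (t = h₁ ∨ t = h₂)) (hf : f₁ ≠ f₂) (b1 : B f₁) (d2 : D f₂) :
    ∃ x y z : F, x ≠ y ∧ y ≠ z ∧ x ≠ z ∧ (∀ t, A t ↔ (t = y ∨ t = z)) ∧
    (∀ t, B t ↔ (t = z ∨ t = x)) ∧ ∀ t, D t ↔ (t = x ∨ t = y) := by
  have a1 : A f₁ := (Fa f₁).2 (Or.inl rfl)
  have a2 : A f₂ := (Fa f₂).2 (Or.inr rfl)
  have nd1 : ¬ D f₁ := fun h => (hE f₁).2.2.2 ⟨a1, b1, h⟩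
  have nb2 : ¬ B f₂ := fun h => (hE f₂).2.2.2 ⟨a2, h, d2⟩
  obtain ⟨x, hx, Fb'⟩ := pr B g₁ g₂ f₁ hg Fb b1
  have bx : B x := (Fb' x).2 (Or.inr rfl)
  have x2 : x ≠ f₂ := fun h => nb2 (h ▸ bx)
  have nax : ¬ A x := by
    intro h
    rcases (Fa x).1 h with h | h
    · exact hx h
    · exact x2 h
  have dx : D x := ((hE x).2.1 bx).resolve_left nax
  obtain ⟨w, hw, Fd'⟩ := pr D h₁ h₂ f₂ hh Fd d2
  have xw : x = w := ((Fd' x).1 dx).resolve_left x2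
  subst xw
  exact ⟨x, f₂, f₁, x2, hf.symm, hx, fun t => (Fa t).trans or_comm, Fb', fun t =>
    (Fd' t).trans or_comm⟩

private theorem cmb2 {F : Type} (A B D : F → Prop)
    (hE : ∀ t, (A t → B t ∨ D t) ∧ (B t → A t ∨ D t) ∧ (D t → A t ∨ B t) ∧ ¬ (A t ∧ B t ∧ D t))
    (f₁ f₂ g₁ g₂ : F) (hg : g₁ ≠ g₂)
    (Fa : ∀ t, A t ↔ (t = f₁ ∨ t = f₂)) (Fb : ∀ t, B t ↔ (t = g₁ ∨ t = g₂))
    (hf : f₁ ≠ f₂) (b1 : B f₁) (b2 : B f₂) (h : F) : ¬ D h := by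
  intro hD
  obtain ⟨x, hx, Fb'⟩ := pr B g₁ g₂ f₁ hg Fb b1
  have xw : f₂ = x := ((Fb' f₂).1 b2).resolve_left hf.symm
  subst xw
  have h1 := (hE h).2.2.1 hD
  rw [Fa, Fb', or_self] at h1
  exact (hE h).2.2.2 ⟨(Fa h).2 h1, (Fb' h).2 h1, hD⟩

/-- MTR. -/
theorem pf_MTR : T_MTR := by
  intro V F _ _ G c h3 hc h2 v
  have e3 := h3 v
  have e3' : ({u | G.Adj v u} : Set V).ncard = 3 := by
    rw [← e3]
    rfl
  obtain ⟨a, b, d, hab, had, hbd, hN⟩ := Set.ncard_eq_three.1 e3'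
  have hN' : ∀ u, G.Adj v u ↔ (u = a ∨ u = b ∨ u = d) := by
    intro u
    have h := Set.ext_iff.1 hN u
    simpa using h
  have hF : ∀ u, G.Adj v u → ∃ f g : F, f ≠ g ∧ ∀ t, s(v, u) ∈ (c t).2.edges ↔ (t = f ∨ t = g) := by
    intro u hu
    have h := h2 s(v, u) hu
    have h' : ({f | s(v, u) ∈ (c f).2.edges} : Set F).ncard = 2 := by
      rw [← h]
      rfl
    obtain ⟨f, g, hfg, hh⟩ := Set.ncard_eq_two.1 h'
    refine ⟨f, g, hfg, fun t => ?_⟩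
    have := Set.ext_iff.1 hh t
    simpa using this
  have hE : ∀ t, _ := fun t => cyE G v (c t).1 (c t).2 (hc t) a b d
    (fun u hu => (hN' u).1 hu) hab had hbd
  obtain ⟨f₁, f₂, hf, Fa⟩ := hF a ((hN' a).2 (Or.inl rfl))
  obtain ⟨g₁, g₂, hg, Fb⟩ := hF b ((hN' b).2 (Or.inr (Or.inl rfl)))
  obtain ⟨h₁, h₂, hh, Fd⟩ := hF d ((hN' d).2 (Or.inr (Or.inr rfl)))
  refine ⟨a, b, d, ?_⟩
  have a1 := (Fa f₁).2 (Or.inl rfl)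
  have a2 := (Fa f₂).2 (Or.inr rfl)
  have main : ∃ x y z : F, x ≠ y ∧ y ≠ z ∧ x ≠ z ∧
      (∀ t, s(v, a) ∈ (c t).2.edges ↔ (t = y ∨ t = z)) ∧
      (∀ t, s(v, b) ∈ (c t).2.edges ↔ (t = z ∨ t = x)) ∧
      ∀ t, s(v, d) ∈ (c t).2.edges ↔ (t = x ∨ t = y) := by
    rcases (hE f₁).1 a1 with b1 | d1
    · rcases (hE f₂).1 a2 with b2 | d2
      · exact absurd ((Fd h₁).2 (Or.inl rfl)) (cmb2 _ _ _ hE f₁ f₂ g₁ g₂ hg Fa Fb hf b1 b2 h₁)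
      · exact cmb _ _ _ hE f₁ f₂ g₁ g₂ h₁ h₂ hg hh Fa Fb Fd hf b1 d2
    · rcases (hE f₂).1 a2 with b2 | d2
      · exact cmb _ _ _ hE f₂ f₁ g₁ g₂ h₁ h₂ hg hh (fun t => (Fa t).trans or_comm) Fb Fd hf.symm
          b2 d1
      · refine absurd ((Fb g₁).2 (Or.inl rfl)) (cmb2 (fun t => s(v, a) ∈ (c t).2.edges)
          (fun t => s(v, d) ∈ (c t).2.edges) (fun t => s(v, b) ∈ (c t).2.edges) ?_ f₁ f₂ h₁ h₂ hh
          Fa Fd hf d1 d2 g₁)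
        intro t
        obtain ⟨q1, q2, q3, q4⟩ := hE t
        exact ⟨fun h => (q1 h).symm, q3, q2, fun h => q4 ⟨h.1, h.2.2, h.2.1⟩⟩
  obtain ⟨x, y, z, xy, yz, xz, HA, HB, HD⟩ := main
  exact ⟨x, y, z, hab, hbd, had, xy, yz, xz, hN', HA, HB, HD⟩

end Pool.Agent.H7.OLP
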