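import Pool.Agent.H74.OLP.Targets

/-!
# Row SGR: one step
-/

set_option autoImplicit false
set_option linter.unusedSectionVars false
open scoped Classical
open Finset

namespace Pool.Agent.H7.OLP

open Pool.Agent.H74.OLP

/-- The sum of a potential along a sequence. -/
private theorem tel {F : Type} (g : F → R) (c : ℤ → F) (n : ℕ) :
    ∑ i ∈ Finset.range n, (g (c i) + g (c (i + 1))) = g (c 0) + g (c n) := by
  induction n with
  | zero => simp [R2]
  | succ n ih =>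
    rw [Finset.sum_range_succ, ih]
    push_cast
    linear_combination R2 (g (c n))

private theorem csg {F : Type} (T : SimpleGraph F) (ω : F → F → R) (g : F → R) (n : ℕ) (c : ℤ → F)
    (h : ICyc T n c) : cs (fun u v => ω u v + (g u + g v)) n c = cs ω n c := by
  unfold cs
  rw [Finset.sum_add_distrib, tel]
  have h1 : c (n : ℤ) = c 0 := (h.eqv _ _).2 (by simp)
  rw [h1, R2, add_zero]

/-- SGR. -/
theorem pf_SGR (h1 : T_POT) (h2 : T_TAI) (h3 : T_GEO) (h4 : T_GDS) (h5 : T_NBH) (h6 : T_KE1)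
    (h7 : T_KE2) (h8 : T_ODC) : T_SGR := by
  intro F T DD ω w t i S hcon hq harc hDD hω hw ht hS hSc hnull hnn hAB
  obtain ⟨t1, ht1⟩ : ∃ t1, t1 = (t - 1) / 2 := ⟨_, rfl⟩
  have ha : 2 * t1 + 1 ≤ t := by omega
  have hb : 3 * i + 12 ≤ t1 := by omega
  obtain ⟨S₁, g, z, m, hSS, hc1, hN1, hP, hM⟩ :=
    h2 F T DD ω w t t1 S hcon hDD hω ha hw hS hSc hnull hnn
  obtain ⟨ω1, hω1⟩ : ∃ ω1, ω1 = fun u v => ω u v + (g u + g v) := ⟨_, rfl⟩
  rw [← hω1] at hP hM
  have hwω : ∀ {x : F} (p : T.Walk x x), ws T ω1 p = ws T ω p := by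
    intro x p
    rw [hω1]
    exact ws_gauge T ω g p
  have hsy : Sy ω1 := by
    rw [hω1]
    exact sy_gauge (hDD ω hω).1 g
  have hsh : Sh T w ω1 := ⟨hsy, fun x p hp => by
    rw [hwω]
    exact (hDD ω hω).2 x p hp⟩
  have hm : 2 * t1 + 2 ≤ m := (h3 F T ω1 S₁ z m hsy hM).2.2 t1 hP
  have hm' : 6 * i + 26 ≤ m := by omega
  -- the sets
  have hB : ¬ Null T ω (Nb T (3 * i + 1) S₁ ∪ Im z m) := by
    intro hN
    obtain ⟨p, hp1, hp2, hp3⟩ := seg T z 0 m (Nat.zero_le m) (fun i _ hi => hM.wf i hi)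
    obtain ⟨q, hq1⟩ := hc1 (z m) hM.zm (z 0) hM.z0
    have e1 := hN (z 0) (p.append q) (by
      intro y hy
      rw [SimpleGraph.Walk.mem_support_append_iff] at hy
      rcases hy with hy | hy
      · obtain ⟨j, _, hj, rfl⟩ := hp3 y hy
        exact Or.inr ⟨j, hj, rfl⟩
      · exact Or.inl (Nb_self T _ (hq1 y hy)))
    rw [← hwω, ws_append, hp2, hM.one,
      pot_walk T hP q (fun y hy => Nb_self T _ (hq1 y hy))] at e1
    simp at e1
  have hBA : ¬ Null T ω ((Nb T (3 * i + 1) S₁ ∪ Im z m) \ Nb T (3 * i) S₁) := by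
    refine hAB _ _ (Nb_mono T le_rfl hSS) ?_ ?_ ?_ hB
    · exact (Nb_mono T (by omega) (subset_refl _)).trans Set.subset_union_left
    · intro x hx y hxy
      exact Or.inl (Nb_adj T hx hxy)
    · intro D hD
      exact null_mono T (hN1 D hD) (Nb_mono T (by omega) (subset_refl _))
  have hBA1 : ¬ Null T ω1 ((Nb T (3 * i + 1) S₁ ∪ Im z m) \ Nb T (3 * i) S₁) := by
    intro hN
    refine hBA fun x p hp => ?_
    rw [← hwω]
    exact hN x p hp
  obtain ⟨n0, c0, hI0, hn0, hs0, hx0, hz0⟩ :=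
    h6 F T ω1 w t1 i S₁ z m (by omega) hsh hM (by omega) hP hBA1
  obtain ⟨c1, hI1, hr1, hs1, hz1, hg1⟩ := h7 F T ω1 t1 i S₁ z m n0 c0 hsy hM (by omega) hm'
    (by omega) hI0 (fun x => (hx0 x).1) hz0
  obtain ⟨nb1, nb2, nb3, nb4⟩ := h5 F T ω1 (3 * i + 1) S₁ z m hsy hM
  obtain ⟨hIP, htwo⟩ := nb4 (3 * i + 3) 20 (by omega) (by omega)
  have hPth : Pth T 20 (fun j => z (3 * i + 3 + j)) :=
    { toIP := hIP
      two := htwo
      q4 := hq }
  have hc1B : ∀ y, c1 y ∈ Nb T (3 * i + 1) S₁ ∪ Im z m ∧ c1 y ∉ Nb T (3 * i) S₁ := by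
    intro y
    obtain ⟨y', hy'⟩ := (hr1 (c1 y)).1 ⟨y, rfl⟩
    rw [← hy']
    exact hx0 y'
  obtain ⟨n', c', hI', hodd, hs', hp'⟩ := h8 F T n0 c1 (fun j => z (3 * i + 3 + j)) (by omega) hI1
    hz1 hPth
    (by
      intro j hj1 hj2
      refine harc _ _ _ ?_ ?_ ?_ ?_
      · exact (hIP.adj j (j - 1) (by omega) (by omega)).2 (by omega)
      · exact (hIP.adj j (j + 1) (by omega) (by omega)).2 (by omega)
      · intro h
        have := hIP.inj (j - 1) (j + 1) (by omega) (by omega) h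
        omega
      · intro h
        have := (hIP.adj (j - 1) (j + 1) (by omega) (by omega)).1 h
        omega)
    (by
      intro k hk1 hk2 x hx i0 hi0
      have hBi := (hc1B i0).1
      rcases hi0 with hi0 | hi0
      · obtain ⟨j, hj1, hj2, hj3⟩ := nb2 (3 * i + 3 + k) (by omega) (by omega) x (c1 i0) hBi hx hi0
        refine ⟨j - (3 * i + 3), by omega, ?_⟩
        rw [hj3]
        congr 1
        omega
      · rw [hi0] at hx
        rcases nb1 (3 * i + 3 + k) (by omega) (by omega) (c1 i0) hBi hx with h | h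
        · refine ⟨k - 1, by omega, ?_⟩
          rw [h]
          congr 1
          omega
        · exact ⟨k + 1, by omega, h⟩)
  have hTri : ∀ D ∈ DD, Tri T D := fun D hD => sh_tri T (by omega) (hDD D hD)
  have hSm : ∀ {k : ℕ}, k ≤ m → z k ∈ S₁ ∪ Im z m := fun {k} hk => Or.inr ⟨k, hk, rfl⟩
  refine ⟨S₁ ∪ Im z m, n', c', hSS.trans Set.subset_union_left, ?_, hI', hodd, ?_, ?_, ?_⟩
  · have hto : ∀ x ∈ S₁ ∪ Im z m, ∃ p : T.Walk (z 0) x, ∀ y ∈ p.support, y ∈ S₁ ∪ Im z m := by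
      intro x hx
      rcases hx with hx | ⟨k, hk, rfl⟩
      · obtain ⟨q, hq1⟩ := hc1 (z 0) hM.z0 x hx
        exact ⟨q, fun y hy => Or.inl (hq1 y hy)⟩
      · obtain ⟨p, _, _, hp3⟩ := seg T z 0 k (Nat.zero_le k) (fun j _ hj => hM.wf j (by omega))
        refine ⟨p, fun y hy => ?_⟩
        obtain ⟨j, _, hj, rfl⟩ := hp3 y hy
        exact hSm (by omega)
    intro x hx y hy
    obtain ⟨p, hp⟩ := hto x hx
    obtain ⟨q, hq1⟩ := hto y hy
    refine ⟨p.reverse.append q, fun v hv => ?_⟩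
    rw [SimpleGraph.Walk.mem_support_append_iff, SimpleGraph.Walk.support_reverse,
      List.mem_reverse] at hv
    exact hv.elim (hp v) (hq1 v)
  · rw [hs' ω (hTri ω hω), hs1 ω (hDD ω hω).1, ← csg T ω g n0 c0 hI0, ← hω1]
    exact hs0
  · intro x
    rcases hp' x with ⟨y, hy⟩ | ⟨k, hk1, hk2, hk3⟩
    · rw [hy]
      refine ⟨?_, fun h => (hc1B y).2 (Nb_mono T le_rfl hSS h)⟩
      rcases (hc1B y).1 with h | ⟨j, hj, h⟩
      · exact Nb_mono T (by omega) Set.subset_union_left h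
      · rw [h]
        exact Nb_self T _ (hSm hj)
    · refine ⟨?_, fun h => ?_⟩
      · exact Nb_mono T (by omega) (subset_refl _)
          (Nb_adj T (Nb_self T 0 (hSm (show 3 * i + 3 + k ≤ m by omega))) hk3)
      · exact nb3 (3 * i + 3 + k) (by omega) (by omega) (c' x) hk3
          (Nb_mono T (by omega) hSS h)
  · intro D hD hD0 t' ht'
    obtain ⟨gD, hgD⟩ := h1 F T D (Nb T t1 S₁) (hDD D hD).1 (hN1 D hD)
    have e1 := hg1 D gD (hDD D hD).1 hgD
    rw [← hs' D (hTri D hD), hD0] at e1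
    exact h4 F T D ω1 w t1 t' S₁ gD z m (hDD D hD) hsy (by omega) (by omega) hM hgD
      (Req.2 e1.symm)

end Pool.Agent.H7.OLP
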